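import Pool.Agent.Mg.Fb3b911.Gea6a08

open Filter Topology Pool.Agent.MP_b3b911_al

/-- Nilpotent groups whose rational graded Lie algebra has an abelian ideal of codimension one:
the normalised second order term of the growth function is bounded, for every generating set. -/
theorem Pool.Agent.Results.MP_b3b911_al.AbelianIdealCone.result
    {G : Type*} [Group G] [Group.IsNilpotent G] (S : Finset G)
    (hS : Subgroup.closure (S : Set G) = ⊤) (φ : G →* Multiplicative ℤ)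
    (hφ : Function.Surjective φ)
    (h : ∀ j : ℕ, ∀ x ∈ φ.ker, ∀ y ∈ φ.ker, y ∈ (⊤ : Subgroup G).lowerCentralSeries j →
      ∃ n : ℕ, 0 < n ∧ (x * y * x⁻¹ * y⁻¹) ^ n ∈ (⊤ : Subgroup G).lowerCentralSeries (j + 2)) :
    ∃ (d : ℕ) (c C : ℝ),
      Tendsto (fun k : ℕ => Real.log (growth S k) / Real.log k) atTop (𝓝 d) ∧ 0 < c ∧
      Tendsto (fun k : ℕ => (growth S k : ℝ) / (k : ℝ) ^ d) atTop (𝓝 c) ∧
      ∀ k : ℕ, 1 ≤ k →
        |((growth S k : ℝ) - c * (k : ℝ) ^ d) / (k : ℝ) ^ ((d : ℤ) - 1)| ≤ C :=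
  Fil.bounded S hS φ hφ h
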