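import Pool.Agent.Mg.Fb3b911.G90fc1d

open Filter Topology Pool.Agent.MP_b3b911_al

/-- If the powers of a central element have finite index in the commutator subgroup, then for
every finite generating set the normalised second order term of the growth function converges. -/
theorem Pool.Agent.Results.MP_b3b911_al.CyclicCommutator.result
    {G : Type*} [Group G] (S : Finset G) (hS : Subgroup.closure (S : Set G) = ⊤) (z : G)
    (hz : z ∈ Subgroup.center G) (hfin : (Subgroup.zpowers z).relIndex (commutator G) ≠ 0) :
    ∃ (d : ℕ) (c L : ℝ),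
      Tendsto (fun k : ℕ => Real.log (growth S k) / Real.log k) atTop (𝓝 d) ∧ 0 < c ∧
      Tendsto (fun k : ℕ => (growth S k : ℝ) / (k : ℝ) ^ d) atTop (𝓝 c) ∧
      Tendsto (fun k : ℕ => ((growth S k : ℝ) - c * (k : ℝ) ^ d) / (k : ℝ) ^ ((d : ℤ) - 1))
        atTop (𝓝 L) :=
  final S hS z hz hfin
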