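import Pool.Agent.MP_b3b911_al.Dich.Fin

open Filter Topology Pool.Agent.MP_b3b911_al

universe u

/-- Groups with a filiform nilpotent subgroup of finite index: the normalised second order term of
the growth function is bounded if some vertical element is straight, and is negative of the exact
order of the cube root of `k` otherwise. The second case occurs. -/
theorem Pool.Agent.Results.MP_b3b911_al.FiliformDichotomy.result :
    (∀ (G : Type u) [Group G] (S : Finset G), Subgroup.closure (S : Set G) = ⊤ →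
      ∀ (H : Subgroup G) [H.FiniteIndex] [Group.IsNilpotent H] (φ ψ : H →* Multiplicative ℤ),
      Filiform φ ψ → ∃ (d : ℕ) (c : ℝ),
        Tendsto (fun k : ℕ => Real.log (growth S k) / Real.log k) atTop (𝓝 d) ∧ 0 < c ∧
        Tendsto (fun k : ℕ => (growth S k : ℝ) / (k : ℝ) ^ d) atTop (𝓝 c) ∧
        ((∃ g : H, φ g = 1 ∧ ψ g ≠ 1 ∧ Straight S (g : G)) → ∃ C : ℝ, ∀ᶠ k : ℕ in atTop,
          |((growth S k : ℝ) - c * (k : ℝ) ^ d) / (k : ℝ) ^ ((d : ℤ) - 1)| ≤ C) ∧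
        ((¬ ∃ g : H, φ g = 1 ∧ ψ g ≠ 1 ∧ Straight S (g : G)) → ∃ c₁ c₂ : ℝ, 0 < c₁ ∧
          ∀ᶠ k : ℕ in atTop, -c₂ * (k : ℝ) ^ (1 / 3 : ℝ) ≤
              ((growth S k : ℝ) - c * (k : ℝ) ^ d) / (k : ℝ) ^ ((d : ℤ) - 1) ∧
            ((growth S k : ℝ) - c * (k : ℝ) ^ d) / (k : ℝ) ^ ((d : ℤ) - 1) ≤
              -c₁ * (k : ℝ) ^ (1 / 3 : ℝ))) ∧
    ∃ (G : Type) (_ : Group G) (S : Finset G) (H : Subgroup G) (φ ψ : H →* Multiplicative ℤ),
      Subgroup.closure (S : Set G) = ⊤ ∧ S.card = 2 ∧ H.index = 2 ∧ Group.IsNilpotent H ∧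
      Group.nilpotencyClass H = 3 ∧ Filiform φ ψ ∧
      Tendsto (fun k : ℕ => Real.log (growth S k) / Real.log k) atTop (𝓝 7) ∧
      ¬ ∃ g : H, φ g = 1 ∧ ψ g ≠ 1 ∧ Straight S (g : G) :=
  ⟨fun _ _ S hS H _ _ φ ψ hF => Dich.dich S hS H φ ψ hF, Dich.occurs⟩
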