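import Pool.Agent.Mg.Fb3b911a.G715bca

open Filter Topology Pool.Agent.MP_b3b911_al

/-- A finitely generated virtually abelian group has a convergent normalised second order term of
the growth function for every finite generating set if and only if it has an abelian subgroup of
index two, or a subgroup of finite index that every element centralises or inverts. -/
theorem Pool.Agent.Results.MP_b3b911_al.VirtAbelian.result
    {G : Type*} [Group G] (hfg : Group.FG G)
    (hA : ∃ A : Subgroup G, A.FiniteIndex ∧ ∀ a ∈ A, ∀ b ∈ A, a * b = b * a) :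
    (∀ S : Finset G, Subgroup.closure (S : Set G) = ⊤ → ∃ (d : ℕ) (c L : ℝ),
      Tendsto (fun k : ℕ => Real.log (growth S k) / Real.log k) atTop (𝓝 d) ∧ 0 < c ∧
      Tendsto (fun k : ℕ => (growth S k : ℝ) / (k : ℝ) ^ d) atTop (𝓝 c) ∧
      Tendsto (fun k : ℕ => ((growth S k : ℝ) - c * (k : ℝ) ^ d) / (k : ℝ) ^ ((d : ℤ) - 1))
        atTop (𝓝 L)) ↔
    ((∃ B : Subgroup G, B.index = 2 ∧ ∀ a ∈ B, ∀ b ∈ B, a * b = b * a) ∨
      ∃ A : Subgroup G, A.FiniteIndex ∧
        ∀ g : G, (∀ a ∈ A, g * a * g⁻¹ = a) ∨ ∀ a ∈ A, g * a * g⁻¹ = a⁻¹) :=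
  VA.classification hfg hA
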